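import Mathlib

/-!
# Levels of the Markoff-type surfaces over small fields without a big orbit

For `p = 3, 5, 7, 11` there are levels `k ≠ 2, -2` such that all points of
`x² + y² + z² - x y z - 2 = k` over `𝔽_p` are in the exceptional orbits.
-/

set_option autoImplicit false

namespace Pool.Agent.Results.MP_c86b5e_nt.EmptyLevels

/-- triples of elements of `𝔽_p` -/
abbrev T (p : ℕ) : Type := ZMod p × ZMod p × ZMod p

/-- the level set `M_k` -/
def M (p : ℕ) (k : ZMod p) : Set (T p) :=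
  {v | v.1 ^ 2 + v.2.1 ^ 2 + v.2.2 ^ 2 - v.1 * v.2.1 * v.2.2 - 2 = k}

/-- the coordinate permutation `(x, y, z) ↦ (y, x, z)` -/
def swap₁ (p : ℕ) : Equiv.Perm (T p) where
  toFun v := (v.2.1, v.1, v.2.2)
  invFun v := (v.2.1, v.1, v.2.2)
  left_inv _ := rfl
  right_inv _ := rfl

/-- the coordinate permutation `(x, y, z) ↦ (x, z, y)` -/
def swap₂ (p : ℕ) : Equiv.Perm (T p) where
  toFun v := (v.1, v.2.2, v.2.1)
  invFun v := (v.1, v.2.2, v.2.1)
  left_inv _ := rfl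
  right_inv _ := rfl

/-- the Vieta involution `(x, y, z) ↦ (x, y, x y - z)` -/
def vieta (p : ℕ) : Equiv.Perm (T p) where
  toFun v := (v.1, v.2.1, v.1 * v.2.1 - v.2.2)
  invFun v := (v.1, v.2.1, v.1 * v.2.1 - v.2.2)
  left_inv v := by ext <;> simp
  right_inv v := by ext <;> simp

/-- the group generated by the coordinate permutations and the Vieta involution -/
def Γ (p : ℕ) : Subgroup (Equiv.Perm (T p)) := Subgroup.closure {swap₁ p, swap₂ p, vieta p}

/-- the orbit of a triple -/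
def orb (p : ℕ) (v : T p) : Set (T p) := {w | ∃ γ ∈ Γ p, w = γ v}

/-- the exceptional triples -/
def Exceptional (p : ℕ) [Fact p.Prime] (v : T p) : Prop :=
  v = (0, 0, 0) ∨ (∃ t : ZMod p, t ≠ 0 ∧ v = (t, 0, 0)) ∨ v = (1, 1, 0) ∨
    (∃ s : ZMod p, s ^ 2 = 2 ∧ v = (s, 1, 0)) ∨
    ∃ r : ZMod p, r ^ 2 = 5 ∧
      (v = ((1 + r) / 2, (1 - r) / 2, 0) ∨ v = ((1 + r) / 2, 1, 0) ∨ v = ((1 - r) / 2, 1, 0))

/-- the union of the exceptional orbits contained in `M_k` -/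
def E (p : ℕ) [Fact p.Prime] (k : ZMod p) : Set (T p) :=
  {w | ∃ v, Exceptional p v ∧ orb p v ⊆ M p k ∧ w ∈ orb p v}

/-- the statement of the question for the prime `p` and the level `k`: `M_k` is the disjoint union
of one orbit and `E_k` -/
def OneOrbit (p : ℕ) [Fact p.Prime] (k : ZMod p) : Prop :=
  ∃ v : T p, M p k = orb p v ∪ E p k ∧ Disjoint (orb p v) (E p k)

/-! ### the group preserves the levels -/

lemma M_stable {p : ℕ} {k : ZMod p} {γ : Equiv.Perm (T p)} (hγ : γ ∈ Γ p) :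
    ∀ v, v ∈ M p k ↔ γ v ∈ M p k := by
  induction hγ using Subgroup.closure_induction with
  | mem g hg =>
    intro v
    rcases hg with rfl | rfl | rfl
    · constructor <;> intro h <;> simp only [M, swap₁, Set.mem_ofPred_eq, Equiv.coe_fn_mk] at h ⊢ <;>
        rw [← h] <;> ring
    · constructor <;> intro h <;> simp only [M, swap₂, Set.mem_ofPred_eq, Equiv.coe_fn_mk] at h ⊢ <;>
        rw [← h] <;> ring
    · constructor <;> intro h <;> simp only [M, vieta, Set.mem_ofPred_eq, Equiv.coe_fn_mk] at h ⊢ <;>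
        rw [← h] <;> ring
  | one => intro v; rfl
  | mul a b _ _ ha hb =>
    intro v
    rw [Equiv.Perm.mul_apply, ← ha, ← hb]
  | inv a _ ha =>
    intro v
    rw [ha (a⁻¹ v)]; simp

lemma orb_sub {p : ℕ} {k : ZMod p} {v : T p} (hv : v ∈ M p k) : orb p v ⊆ M p k := by
  rintro w ⟨γ, hγ, rfl⟩
  exact (M_stable hγ v).1 hv

/-- points in an exceptional orbit -/
lemma mem_E {p : ℕ} [Fact p.Prime] {k : ZMod p} {v : T p} (hv : v ∈ M p k) (γ : Equiv.Perm (T p)) (hγ : γ ∈ Γ p)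
    (he : Exceptional p (γ v)) : v ∈ E p k :=
  ⟨γ v, he, orb_sub ((M_stable hγ v).1 hv), γ⁻¹, (Γ p).inv_mem hγ, by simp⟩

/-! ### a search -/

/-- exceptional triples, by computation -/
def exc (p : ℕ) (v : T p) : Bool :=
  decide (v.2.2 = 0) &&
    (decide (v.2.1 = 0) || (decide (v.2.1 = 1) &&
      (decide (v.1 = 1) || decide (v.1 ^ 2 = 2) || decide ((2 * v.1 - 1) ^ 2 = 5))) ||
      (decide ((2 * v.1 - 1) ^ 2 = 5) && decide (v.2.1 = 1 - v.1)))

lemma exc_spec {p : ℕ} [Fact p.Prime] (h2 : (2 : ZMod p) ≠ 0) (v : T p)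
    (hv : exc p v = true) : Exceptional p v := by
  obtain ⟨x, y, z⟩ := v
  simp only [exc, Bool.and_eq_true, Bool.or_eq_true, decide_eq_true_eq] at hv
  obtain ⟨rfl, hv⟩ := hv
  have key : ∀ x : ZMod p, (1 + (2 * x - 1)) / 2 = x := by
    intro x; field_simp; ring
  have key' : ∀ x : ZMod p, (1 - (2 * x - 1)) / 2 = 1 - x := by
    intro x; field_simp; ring
  rcases hv with (rfl | ⟨rfl, (rfl | hv) | hv⟩) | ⟨hv, rfl⟩
  · by_cases hx : x = 0
    · subst hx; exact Or.inl rfl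
    · exact Or.inr (Or.inl ⟨x, hx, rfl⟩)
  · exact Or.inr (Or.inr (Or.inl rfl))
  · exact Or.inr (Or.inr (Or.inr (Or.inl ⟨x, hv, rfl⟩)))
  · exact Or.inr (Or.inr (Or.inr (Or.inr ⟨2 * x - 1, hv, Or.inr (Or.inl (by rw [key]))⟩)))
  · exact Or.inr (Or.inr (Or.inr (Or.inr ⟨2 * x - 1, hv, Or.inl (by rw [key, key'])⟩)))

/-- the search by words in the generators -/
def reach (p : ℕ) : ℕ → T p → Bool
  | 0, v => exc p v || exc p (v.2.1, v.1, v.2.2) || exc p (v.1, v.2.2, v.2.1) ||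
      exc p (v.2.1, v.2.2, v.1) || exc p (v.2.2, v.1, v.2.1) || exc p (v.2.2, v.2.1, v.1)
  | n + 1, v => reach p n v || reach p n (v.1, v.2.1, v.1 * v.2.1 - v.2.2) ||
      reach p n (v.1, v.1 * v.2.2 - v.2.1, v.2.2) || reach p n (v.2.1 * v.2.2 - v.1, v.2.1, v.2.2)

lemma s1 (p : ℕ) : swap₁ p ∈ Γ p := Subgroup.subset_closure (by simp)
lemma s2 (p : ℕ) : swap₂ p ∈ Γ p := Subgroup.subset_closure (by simp)
lemma vi (p : ℕ) : vieta p ∈ Γ p := Subgroup.subset_closure (by simp)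

lemma reach_spec {p : ℕ} [Fact p.Prime] (h2 : (2 : ZMod p) ≠ 0) (n : ℕ) :
    ∀ v : T p, reach p n v = true → ∃ γ ∈ Γ p, Exceptional p (γ v) := by
  induction n with
  | zero =>
    intro v hv
    simp only [reach, Bool.or_eq_true] at hv
    rcases hv with ((((hv | hv) | hv) | hv) | hv) | hv
    · exact ⟨1, (Γ p).one_mem, exc_spec h2 _ hv⟩
    · exact ⟨swap₁ p, s1 p, exc_spec h2 _ hv⟩
    · exact ⟨swap₂ p, s2 p, exc_spec h2 _ hv⟩
    · exact ⟨swap₂ p * swap₁ p, (Γ p).mul_mem (s2 p) (s1 p), exc_spec h2 _ hv⟩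
    · exact ⟨swap₁ p * swap₂ p, (Γ p).mul_mem (s1 p) (s2 p), exc_spec h2 _ hv⟩
    · exact ⟨swap₁ p * swap₂ p * swap₁ p, (Γ p).mul_mem ((Γ p).mul_mem (s1 p) (s2 p)) (s1 p),
        exc_spec h2 _ hv⟩
  | succ n ih =>
    intro v hv
    simp only [reach, Bool.or_eq_true] at hv
    rcases hv with ((hv | hv) | hv) | hv
    · exact ih v hv
    · obtain ⟨γ, hγ, he⟩ := ih _ hv
      exact ⟨γ * vieta p, (Γ p).mul_mem hγ (vi p), he⟩
    · obtain ⟨γ, hγ, he⟩ := ih _ hv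
      exact ⟨γ * (swap₂ p * vieta p * swap₂ p), (Γ p).mul_mem hγ
        ((Γ p).mul_mem ((Γ p).mul_mem (s2 p) (vi p)) (s2 p)), he⟩
    · obtain ⟨γ, hγ, he⟩ := ih _ hv
      refine ⟨γ * (swap₁ p * swap₂ p * vieta p * swap₂ p * swap₁ p), (Γ p).mul_mem hγ
        ((Γ p).mul_mem ((Γ p).mul_mem ((Γ p).mul_mem ((Γ p).mul_mem (s1 p) (s2 p)) (vi p)) (s2 p))
        (s1 p)), ?_⟩
      exact he

lemma empty_of {p : ℕ} [Fact p.Prime] (h2 : (2 : ZMod p) ≠ 0) (n : ℕ) (k : ZMod p)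
    (hc : ∀ x y z : ZMod p, x ^ 2 + y ^ 2 + z ^ 2 - x * y * z - 2 = k →
      reach p n (x, y, z) = true) : M p k ⊆ E p k := by
  intro v hv
  obtain ⟨x, y, z⟩ := v
  obtain ⟨γ, hγ, he⟩ := reach_spec h2 n _ (hc x y z hv)
  exact mem_E hv γ hγ he

lemma not_one {p : ℕ} [Fact p.Prime] {k : ZMod p} (h : M p k ⊆ E p k) : ¬ OneOrbit p k := by
  rintro ⟨v, h1, h2⟩
  have hv : v ∈ orb p v := ⟨1, (Γ p).one_mem, rfl⟩
  have hM : v ∈ M p k := by rw [h1]; exact Or.inl hv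
  exact Set.disjoint_left.1 h2 hv (h hM)

instance : Fact (Nat.Prime 3) := ⟨by norm_num⟩
instance : Fact (Nat.Prime 5) := ⟨by norm_num⟩
instance : Fact (Nat.Prime 7) := ⟨by norm_num⟩
instance : Fact (Nat.Prime 11) := ⟨by norm_num⟩

lemma e3 : M 3 0 ⊆ E 3 0 := empty_of (by decide) 3 0 (by decide +kernel)
lemma e5a : M 5 0 ⊆ E 5 0 := empty_of (by decide) 3 0 (by decide +kernel)
lemma e5b : M 5 1 ⊆ E 5 1 := empty_of (by decide) 3 1 (by decide +kernel)
lemma e5c : M 5 4 ⊆ E 5 4 := empty_of (by decide) 3 4 (by decide +kernel)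
lemma e7a : M 7 0 ⊆ E 7 0 := empty_of (by decide) 3 0 (by decide +kernel)
lemma e7b : M 7 1 ⊆ E 7 1 := empty_of (by decide) 4 1 (by decide +kernel)
lemma e11 : M 11 1 ⊆ E 11 1 := empty_of (by decide) 4 1 (by decide +kernel)

lemma E_sub {p : ℕ} [Fact p.Prime] (k : ZMod p) : E p k ⊆ M p k := by
  rintro w ⟨v, -, h, hw⟩
  exact h hw

/-- `p` is odd, `k ≠ 2, -2`, the level set `M_k` is not empty, all of its points are exceptional
(`M_k = E_k`), and it is not the disjoint union of one orbit and of `E_k`. -/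
def Counterexample (p : ℕ) [Fact p.Prime] (k : ZMod p) : Prop :=
  p ≠ 2 ∧ k ≠ 2 ∧ k ≠ -2 ∧ (M p k).Nonempty ∧ M p k = E p k ∧ ¬ OneOrbit p k

lemma ce {p : ℕ} [Fact p.Prime] {k : ZMod p} (h : M p k ⊆ E p k) (hp : p ≠ 2) (h2 : k ≠ 2)
    (h3 : k ≠ -2) (x y z : ZMod p) (hx : x ^ 2 + y ^ 2 + z ^ 2 - x * y * z - 2 = k) :
    Counterexample p k :=
  ⟨hp, h2, h3, ⟨(x, y, z), hx⟩, h.antisymm (E_sub k), not_one h⟩

/-- The answer to the question as posed, for every odd prime `p` and every `k ≠ 2, -2`, is no. The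
pairs `(p, k) = (3, 0)`, `(5, 0)`, `(5, 1)`, `(5, 4)`, `(7, 0)`, `(7, 1)`, `(11, 1)` are
counterexamples. -/
theorem result :
    (¬ ∀ (p : ℕ) [Fact p.Prime], p ≠ 2 → ∀ k : ZMod p, k ≠ 2 → k ≠ -2 → OneOrbit p k) ∧
    Counterexample 3 0 ∧ Counterexample 5 0 ∧ Counterexample 5 1 ∧ Counterexample 5 4 ∧
    Counterexample 7 0 ∧ Counterexample 7 1 ∧ Counterexample 11 1 :=
  ⟨fun h => not_one e3 (h 3 (by norm_num) 0 (by decide) (by decide)),
    ce e3 (by norm_num) (by decide) (by decide) 1 1 0 (by decide),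
    ce e5a (by norm_num) (by decide) (by decide) 1 1 0 (by decide),
    ce e5b (by norm_num) (by decide) (by decide) 2 2 0 (by decide),
    ce e5c (by norm_num) (by decide) (by decide) 1 0 0 (by decide),
    ce e7a (by norm_num) (by decide) (by decide) 1 1 0 (by decide),
    ce e7b (by norm_num) (by decide) (by decide) 3 1 0 (by decide),
    ce e11 (by norm_num) (by decide) (by decide) 8 4 0 (by decide)⟩

end Pool.Agent.Results.MP_c86b5e_nt.EmptyLevels
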